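import Pool.Agent.D0H86.PW.Stm4

set_option autoImplicit false

/-! # Module DG of project PW: the diagonal -/

namespace Pool.Agent.D0H12.PW

open Finset Filter
open Pool.Agent.D0H86.PW (S_DG)

/-- **Module DG.** -/
theorem t_DG : S_DG := by
  classical
  intro Φ hΦ
  choose T hT using fun j => eventually_atTop.1 (hΦ j)
  obtain ⟨t, ht⟩ : ∃ t : ℕ → ℕ, ∀ j, t j = (∑ i ∈ range (j + 1), T i) + j := ⟨_, fun _ => rfl⟩
  have h1 : ∀ j, T j ≤ t j := by
    intro j
    rw [ht]
    exact (Finset.single_le_sum (f := T) (fun _ _ => Nat.zero_le _)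
      (Finset.mem_range.2 (Nat.lt_succ_self j))).trans (Nat.le_add_right _ _)
  have h2 : ∀ j, j ≤ t j := fun j => by rw [ht]; exact Nat.le_add_left _ _
  have hmono : Monotone (fun n : ℕ => Nat.findGreatest (fun j => t j ≤ n) n) := by
    intro n m hnm
    exact Nat.findGreatest_mono (fun j (hj : t j ≤ n) => hj.trans hnm) hnm
  refine ⟨fun n => Nat.findGreatest (fun j => t j ≤ n) n, hmono, ?_, ?_⟩
  · apply tendsto_atTop_atTop_of_monotone hmono
    intro b
    exact ⟨t b, Nat.le_findGreatest (h2 b) le_rfl⟩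
  · filter_upwards [eventually_ge_atTop (t 0)] with n hn
    have h3 : t (Nat.findGreatest (fun j => t j ≤ n) n) ≤ n :=
      Nat.findGreatest_spec (P := fun j => t j ≤ n) (Nat.zero_le n) hn
    exact hT _ n ((h1 _).trans h3)

end Pool.Agent.D0H12.PW
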