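import Pool.Agent.D0H86.PW.Stm2

/-! Project PW, module EX: the model exists. -/

set_option autoImplicit false

namespace Pool.Agent.D0H12.PW

open Finset Filter MeasureTheory ProbabilityTheory
open Pool.Agent.D0H86.PW

theorem t_EX : S_EX := by
  intro H hH
  have hne : ∀ k, (Ico (2 ^ k) (2 ^ k + H k)).Nonempty := by
    intro k
    have := hH k
    exact ⟨2 ^ k, by rw [mem_Ico]; omega⟩
  let law : ℕ → Measure ℕ := fun k => (PMF.uniformOfFinset _ (hne k)).toMeasure
  have hprob : ∀ k, IsProbabilityMeasure (law k) := fun k =>
    PMF.toMeasure.isProbabilityMeasure _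
  refine ⟨Measure.infinitePi law, inferInstance, ?_, ?_, ?_⟩
  · intro k
    exact measurable_pi_apply k
  · exact iIndepFun_infinitePi (P := law) (X := fun _ ω => ω) (by fun_prop)
  · intro k j
    have h1 : (Measure.infinitePi law).real {ω | ω k = j} = (law k).real {j} := by
      have h2 := (measurePreserving_eval_infinitePi law k).map_eq
      rw [← h2, map_measureReal_apply (measurable_pi_apply k) (measurableSet_singleton j)]
      rfl
    rw [h1]
    unfold Measure.real
    simp only [law]
    rw [PMF.toMeasure_apply_singleton _ _ (measurableSet_singleton j),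
      PMF.uniformOfFinset_apply, Nat.card_Ico]
    by_cases h : 2 ^ k ≤ j ∧ j < 2 ^ k + H k
    · rw [if_pos (mem_Ico.2 h), if_pos h, ENNReal.toReal_inv, ENNReal.toReal_natCast]
      congr 2
      omega
    · rw [if_neg (fun h' => h (mem_Ico.1 h')), if_neg h]
      simp

end Pool.Agent.D0H12.PW
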