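import Mathlib
import Pool.Agent.D0H86.PW.Stm3

set_option autoImplicit false

/-! # Module G1 of project PW: many levels, first form, for a given set of quadruples -/

namespace Pool.Agent.D0H12.PW.GG

open Finset Filter
open Pool.Agent.D0H86.PW (P1 S_R2B S_G1)

theorem c1_ev (a b K : ℝ) (h : a < b) : ∀ᶠ n : ℕ in atTop, K * (n : ℝ) ^ a ≤ (n : ℝ) ^ b := by
  have h1 : Tendsto (fun n : ℕ => (n : ℝ) ^ (b - a)) atTop atTop :=
    (tendsto_rpow_atTop (sub_pos.2 h)).comp tendsto_natCast_atTop_atTop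
  filter_upwards [h1.eventually_ge_atTop K, eventually_gt_atTop 0] with n hn hn0
  have hn0' : (0 : ℝ) < n := by exact_mod_cast hn0
  have e : (n : ℝ) ^ b = (n : ℝ) ^ (b - a) * (n : ℝ) ^ a := by
    rw [← Real.rpow_add hn0']; congr 1; ring
  rw [e]
  exact mul_le_mul_of_nonneg_right hn (Real.rpow_nonneg hn0'.le _)

/-- hypothesis: at most `M` pairs with a given sum of squares -/
def Rep (n M : ℕ) : Prop := ∀ m : ℕ, m ≤ n → ∀ F : Finset (ℕ × ℕ),
  (∀ p ∈ F, p.1 ^ 2 + p.2 ^ 2 = m) → F.card ≤ M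

theorem c1_fib {α : Type} (n M m : ℕ) (hR : Rep n M) (hm : m ≤ n) (G : Finset α) (g : α → ℕ × ℕ)
    (hg : ∀ q ∈ G, (g q).1 ^ 2 + (g q).2 ^ 2 = m)
    (hi : ∀ q ∈ G, ∀ q' ∈ G, g q = g q' → q = q') : G.card ≤ M := by
  classical
  have h1 : (G.image g).card = G.card := by
    apply Finset.card_image_of_injOn
    intro q hq q' hq' h
    exact hi q hq q' hq' h
  rw [← h1]
  apply hR m hm
  intro p hp
  obtain ⟨q, hq, rfl⟩ := Finset.mem_image.1 hp
  exact hg q hq

theorem c1_le_sqrt {n x k : ℕ} (h : n = x ^ 2 + k) : x ∈ range (n.sqrt + 1) := by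
  rw [Finset.mem_range, Nat.lt_succ_iff, Nat.le_sqrt']
  omega

theorem c1_diag (n M : ℕ) (hR : Rep n M) (S : Finset (ℕ × ℕ × ℕ × ℕ))
    (hS : ∀ x y z w : ℕ, (x, y, z, w) ∈ S → n = x ^ 2 + y ^ 2 + z ^ 2 + 4 * w ^ 2) :
    (S.filter (fun q => q.1 = q.2.1 ∨ q.1 = q.2.2.1 ∨ q.2.1 = q.2.2.1)).card ≤
      3 * (M * (n.sqrt + 1)) := by
  classical
  have h1 : (S.filter (fun q => q.1 = q.2.1)).card ≤ M * (n.sqrt + 1) := by
    have := Finset.card_le_mul_card_image_of_maps_to (s := S.filter (fun q => q.1 = q.2.1))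
      (t := range (n.sqrt + 1)) (f := fun q => q.1) (by
        rintro ⟨x, y, z, w⟩ hq
        have h := hS x y z w (Finset.mem_filter.1 hq).1
        exact c1_le_sqrt (x := x) (k := y ^ 2 + z ^ 2 + 4 * w ^ 2) (by omega)) M (by
        intro t ht
        by_cases hne : ((S.filter (fun q => q.1 = q.2.1)).filter (fun q => q.1 = t)).card = 0
        · rw [hne]; exact Nat.zero_le _
        · obtain ⟨q0, hq0⟩ := Finset.card_pos.1 (Nat.pos_of_ne_zero hne)
          apply c1_fib n M (n - 2 * t ^ 2) hR (Nat.sub_le _ _) _ (fun q => (q.2.2.1, 2 * q.2.2.2))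
          · rintro ⟨x, y, z, w⟩ hq
            simp only [Finset.mem_filter] at hq
            obtain ⟨⟨hq1, hq2⟩, hq3⟩ := hq
            have h := hS x y z w hq1
            subst hq3
            subst hq2
            show z ^ 2 + (2 * w) ^ 2 = n - 2 * x ^ 2
            have : (2 * w) ^ 2 = 4 * w ^ 2 := by ring
            omega
          · rintro ⟨x, y, z, w⟩ hq ⟨x', y', z', w'⟩ hq' he
            simp only [Finset.mem_filter] at hq hq'
            simp only [Prod.mk.injEq] at he ⊢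
            omega)
    rw [Finset.card_range] at this
    exact this
  have h2 : (S.filter (fun q => q.1 = q.2.2.1)).card ≤ M * (n.sqrt + 1) := by
    have := Finset.card_le_mul_card_image_of_maps_to (s := S.filter (fun q => q.1 = q.2.2.1))
      (t := range (n.sqrt + 1)) (f := fun q => q.1) (by
        rintro ⟨x, y, z, w⟩ hq
        have h := hS x y z w (Finset.mem_filter.1 hq).1
        exact c1_le_sqrt (x := x) (k := y ^ 2 + z ^ 2 + 4 * w ^ 2) (by omega)) M (by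
        intro t ht
        apply c1_fib n M (n - 2 * t ^ 2) hR (Nat.sub_le _ _) _ (fun q => (q.2.1, 2 * q.2.2.2))
        · rintro ⟨x, y, z, w⟩ hq
          simp only [Finset.mem_filter] at hq
          obtain ⟨⟨hq1, hq2⟩, hq3⟩ := hq
          have h := hS x y z w hq1
          subst hq3
          subst hq2
          show y ^ 2 + (2 * w) ^ 2 = n - 2 * x ^ 2
          have : (2 * w) ^ 2 = 4 * w ^ 2 := by ring
          omega
        · rintro ⟨x, y, z, w⟩ hq ⟨x', y', z', w'⟩ hq' he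
          simp only [Finset.mem_filter] at hq hq'
          simp only [Prod.mk.injEq] at he ⊢
          omega)
    rw [Finset.card_range] at this
    exact this
  have h3 : (S.filter (fun q => q.2.1 = q.2.2.1)).card ≤ M * (n.sqrt + 1) := by
    have := Finset.card_le_mul_card_image_of_maps_to (s := S.filter (fun q => q.2.1 = q.2.2.1))
      (t := range (n.sqrt + 1)) (f := fun q => q.2.1) (by
        rintro ⟨x, y, z, w⟩ hq
        have h := hS x y z w (Finset.mem_filter.1 hq).1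
        exact c1_le_sqrt (x := y) (k := x ^ 2 + z ^ 2 + 4 * w ^ 2) (by omega)) M (by
        intro t ht
        apply c1_fib n M (n - 2 * t ^ 2) hR (Nat.sub_le _ _) _ (fun q => (q.1, 2 * q.2.2.2))
        · rintro ⟨x, y, z, w⟩ hq
          simp only [Finset.mem_filter] at hq
          obtain ⟨⟨hq1, hq2⟩, hq3⟩ := hq
          have h := hS x y z w hq1
          subst hq3
          subst hq2
          show x ^ 2 + (2 * w) ^ 2 = n - 2 * y ^ 2
          have : (2 * w) ^ 2 = 4 * w ^ 2 := by ring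
          omega
        · rintro ⟨x, y, z, w⟩ hq ⟨x', y', z', w'⟩ hq' he
          simp only [Finset.mem_filter] at hq hq'
          simp only [Prod.mk.injEq] at he ⊢
          omega)
    rw [Finset.card_range] at this
    exact this
  have h4 : S.filter (fun q => q.1 = q.2.1 ∨ q.1 = q.2.2.1 ∨ q.2.1 = q.2.2.1) =
      S.filter (fun q => q.1 = q.2.1) ∪ (S.filter (fun q => q.1 = q.2.2.1) ∪
        S.filter (fun q => q.2.1 = q.2.2.1)) := by
    rw [← Finset.filter_or, ← Finset.filter_or]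
  rw [h4]
  calc _ ≤ (S.filter (fun q => q.1 = q.2.1)).card + ((S.filter (fun q => q.1 = q.2.2.1)).card +
        (S.filter (fun q => q.2.1 = q.2.2.1)).card) :=
        (Finset.card_union_le _ _).trans (Nat.add_le_add_left (Finset.card_union_le _ _) _)
    _ ≤ _ := by omega

/-- the sorted triple -/
def srt (q : ℕ × ℕ × ℕ × ℕ) : (_ : ℕ) × (ℕ × ℕ) :=
  ⟨max q.1 (max q.2.1 q.2.2.1), (max (min q.1 q.2.1) (min (max q.1 q.2.1) q.2.2.1),
    min q.1 (min q.2.1 q.2.2.1))⟩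

theorem c1_sort (n : ℕ) (S : Finset (ℕ × ℕ × ℕ × ℕ)) (U : Finset ℕ)
    (hS : ∀ x y z w : ℕ, (x, y, z, w) ∈ S → n = x ^ 2 + y ^ 2 + z ^ 2 + 4 * w ^ 2)
    (hU : ∀ x y z w : ℕ, (x, y, z, w) ∈ S → x ∈ U ∧ y ∈ U ∧ z ∈ U) :
    (S.filter (fun q => ¬ (q.1 = q.2.1 ∨ q.1 = q.2.2.1 ∨ q.2.1 = q.2.2.1))).card ≤
      6 * ∑ u ∈ U, (P1 n u).card := by
  classical
  have hT : (U.sigma (fun u => P1 n u)).card =
      ∑ u ∈ U, (P1 n u).card := Finset.card_sigma _ _
  rw [← hT]
  apply Finset.card_le_mul_card_image_of_maps_to (f := srt)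
  · rintro ⟨x, y, z, w⟩ hq
    obtain ⟨hq1, hq2⟩ := Finset.mem_filter.1 hq
    have h := hS x y z w hq1
    simp only [not_or] at hq2
    obtain ⟨h1, h2, h3⟩ := hq2
    rw [Finset.mem_sigma]
    obtain ⟨hUx, hUy, hUz⟩ := hU x y z w hq1
    have key : ∀ a b c : ℕ, a ∈ U → b < a → c < b → n = a ^ 2 + b ^ 2 + c ^ 2 + 4 * w ^ 2 →
        a ∈ U ∧ (b, c) ∈ P1 n a := by
      intro a b c haU hab hbc he
      refine ⟨haU, ?_⟩
      unfold P1
      rw [Finset.mem_filter, Finset.mem_product, Finset.mem_range, Finset.mem_range]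
      exact ⟨⟨hab, lt_trans hbc hab⟩, hbc.le, w, he⟩
    have hcases : (y < x ∧ z < y) ∨ (z < x ∧ y < z) ∨ (x < y ∧ z < x) ∨ (z < y ∧ x < z) ∨
        (x < z ∧ y < x) ∨ (y < z ∧ x < y) := by omega
    unfold srt
    rcases hcases with h' | h' | h' | h' | h' | h'
    · have e1 : max x (max y z) = x := by omega
      have e2 : max (min x y) (min (max x y) z) = y := by omega
      have e3 : min x (min y z) = z := by omega
      simp only [e1, e2, e3]
      exact key x y z hUx h'.1 h'.2 (by omega)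
    · have e1 : max x (max y z) = x := by omega
      have e2 : max (min x y) (min (max x y) z) = z := by omega
      have e3 : min x (min y z) = y := by omega
      simp only [e1, e2, e3]
      exact key x z y hUx h'.1 h'.2 (by omega)
    · have e1 : max x (max y z) = y := by omega
      have e2 : max (min x y) (min (max x y) z) = x := by omega
      have e3 : min x (min y z) = z := by omega
      simp only [e1, e2, e3]
      exact key y x z hUy h'.1 h'.2 (by omega)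
    · have e1 : max x (max y z) = y := by omega
      have e2 : max (min x y) (min (max x y) z) = z := by omega
      have e3 : min x (min y z) = x := by omega
      simp only [e1, e2, e3]
      exact key y z x hUy h'.1 h'.2 (by omega)
    · have e1 : max x (max y z) = z := by omega
      have e2 : max (min x y) (min (max x y) z) = x := by omega
      have e3 : min x (min y z) = y := by omega
      simp only [e1, e2, e3]
      exact key z x y hUz h'.1 h'.2 (by omega)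
    · have e1 : max x (max y z) = z := by omega
      have e2 : max (min x y) (min (max x y) z) = y := by omega
      have e3 : min x (min y z) = x := by omega
      simp only [e1, e2, e3]
      exact key z y x hUz h'.1 h'.2 (by omega)
  · rintro ⟨a, b, c⟩ ht
    set G := (S.filter (fun q => ¬ (q.1 = q.2.1 ∨ q.1 = q.2.2.1 ∨ q.2.1 = q.2.2.1))).filter
      (fun q => srt q = ⟨a, b, c⟩) with hG
    have hinj : (G.image (fun q => (q.1, q.2.1, q.2.2.1))).card = G.card := by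
      apply Finset.card_image_of_injOn
      rintro ⟨x, y, z, w⟩ hq ⟨x', y', z', w'⟩ hq' he
      have hq1 := (Finset.mem_filter.1 (Finset.mem_filter.1 (Finset.mem_coe.1 hq)).1).1
      have hq1' := (Finset.mem_filter.1 (Finset.mem_filter.1 (Finset.mem_coe.1 hq')).1).1
      have h := hS x y z w hq1
      have h' := hS x' y' z' w' hq1'
      simp only [Prod.mk.injEq] at he ⊢
      obtain ⟨rfl, rfl, rfl⟩ := he
      refine ⟨rfl, rfl, rfl, ?_⟩
      have : w ^ 2 = w' ^ 2 := by omega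
      exact Nat.pow_left_injective (n := 2) two_ne_zero this
    rw [← hinj]
    have hsub : G.image (fun q => (q.1, q.2.1, q.2.2.1)) ⊆
        ([(a, b, c), (a, c, b), (b, a, c), (b, c, a), (c, a, b), (c, b, a)] :
          List (ℕ × ℕ × ℕ)).toFinset := by
      intro t htt
      obtain ⟨⟨x, y, z, w⟩, hq, rfl⟩ := Finset.mem_image.1 htt
      have hq2 := (Finset.mem_filter.1 hq).2
      have hq3 := (Finset.mem_filter.1 (Finset.mem_filter.1 hq).1).2
      simp only [not_or] at hq3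
      unfold srt at hq2
      simp only [Sigma.mk.injEq, heq_eq_eq, Prod.mk.injEq] at hq2
      obtain ⟨h1, h2, h3⟩ := hq2
      simp only [List.mem_toFinset, List.mem_cons, Prod.mk.injEq, List.not_mem_nil, or_false]
      have hcases : (y < x ∧ z < y) ∨ (z < x ∧ y < z) ∨ (x < y ∧ z < x) ∨ (z < y ∧ x < z) ∨
          (x < z ∧ y < x) ∨ (y < z ∧ x < y) := by omega
      rcases hcases with h' | h' | h' | h' | h' | h'
      · left; omega
      · right; left; omega
      · right; right; left; omega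
      · right; right; right; right; left; omega
      · right; right; right; left; omega
      · right; right; right; right; right; omega
    exact (Finset.card_le_card hsub).trans ((List.toFinset_card_le _).trans (by simp))

theorem c1_P1 (n M u : ℕ) (hR : Rep n M) : (P1 n u).card ≤ M * (n.sqrt + 1) := by
  classical
  have := Finset.card_le_mul_card_image_of_maps_to (s := P1 n u)
    (t := range (n.sqrt + 1)) (f := fun p => p.1) (by
      rintro ⟨y, z⟩ hp
      unfold P1 at hp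
      obtain ⟨_, _, w, hw⟩ := Finset.mem_filter.1 hp
      exact c1_le_sqrt (x := y) (k := u ^ 2 + z ^ 2 + 4 * w ^ 2) (by simp only at hw; omega)) M (by
      intro t ht
      apply c1_fib n M (n - u ^ 2 - t ^ 2) hR (by omega) _
        (fun p => (p.2, 2 * Nat.sqrt ((n - u ^ 2 - p.1 ^ 2 - p.2 ^ 2) / 4)))
      · rintro ⟨y, z⟩ hp
        obtain ⟨hp1, hp2⟩ := Finset.mem_filter.1 hp
        unfold P1 at hp1
        obtain ⟨_, _, w, hw⟩ := Finset.mem_filter.1 hp1
        simp only at hw hp2 ⊢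
        subst hp2
        have e : (n - u ^ 2 - y ^ 2 - z ^ 2) / 4 = w ^ 2 := by omega
        rw [e, Nat.sqrt_eq']
        have : (2 * w) ^ 2 = 4 * w ^ 2 := by ring
        omega
      · rintro ⟨y, z⟩ hq ⟨y', z'⟩ hq' he
        have h1 := (Finset.mem_filter.1 hq).2
        have h2 := (Finset.mem_filter.1 hq').2
        simp only [Prod.mk.injEq] at he h1 h2 ⊢
        omega)
  rw [Finset.card_range] at this
  exact this

theorem c1_P1u (n u : ℕ) : (P1 n u).card ≤ u * u := by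
  classical
  unfold P1
  refine (Finset.card_filter_le _ _).trans ?_
  rw [Finset.card_product, Finset.card_range]

/-- **Module G1.** -/
theorem t_G1 : S_R2B → S_G1 := by
  classical
  intro hR2 ε hε hε4
  set e : ℝ := ε / 8 with he
  have he0 : 0 < e := by positivity
  obtain ⟨C, hC, hR⟩ := hR2 e he0
  filter_upwards [eventually_ge_atTop 1,
    c1_ev (1 / 2 + e) (1 - ε / 4) (12 * C) (by linarith),
    c1_ev (3 / 4) (1 - ε / 4) 96 (by linarith),
    c1_ev (1 - ε / 2) (1 - ε / 4) 96 (by linarith),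
    c1_ev (1 / 2 - ε) (1 / 2 - ε / 4 - e) (48 * C) (by linarith)] with n hn1 hE1 hE2 hE3 hE4 hodd
  intro S hScard hS'
  have hnpos : (0 : ℝ) < n := by exact_mod_cast hn1
  have hn1' : (1 : ℝ) ≤ n := by exact_mod_cast hn1
  set M : ℕ := ⌊C * (n : ℝ) ^ e⌋₊ with hM
  have hMle : (M : ℝ) ≤ C * (n : ℝ) ^ e := Nat.floor_le (by positivity)
  have hRep : Rep n M := by
    intro m hm F hF
    exact Nat.le_floor (hR m n hn1 hm F hF)
  set r : ℕ := n.sqrt with hr
  have hr2 : ((r : ℝ)) ≤ (n : ℝ) ^ (1 / 2 : ℝ) := by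
    rw [← Real.sqrt_eq_rpow]
    exact Real.nat_sqrt_le_real_sqrt
  have hone : (1 : ℝ) ≤ (n : ℝ) ^ (1 / 2 : ℝ) := Real.one_le_rpow hn1' (by norm_num)
  have hr1 : ((r + 1 : ℕ) : ℝ) ≤ 2 * (n : ℝ) ^ (1 / 2 : ℝ) := by
    push_cast; linarith
  have hMr : ((M * (r + 1) : ℕ) : ℝ) ≤ 2 * C * (n : ℝ) ^ (1 / 2 + e) := by
    rw [Nat.cast_mul]
    calc (M : ℝ) * ((r + 1 : ℕ) : ℝ) ≤ (C * (n : ℝ) ^ e) * (2 * (n : ℝ) ^ (1 / 2 : ℝ)) :=
          mul_le_mul hMle hr1 (by positivity) (by positivity)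
      _ = 2 * C * (n : ℝ) ^ (1 / 2 + e) := by
          rw [Real.rpow_add hnpos]; ring
  set U : Finset ℕ := (range (r + 1)).filter
    (fun u => ∃ x y z w : ℕ, (x, y, z, w) ∈ S ∧ (u = x ∨ u = y ∨ u = z)) with hUdef
  have hUr : U ⊆ range (r + 1) := Finset.filter_subset _ _
  have hUU : ∀ x y z w : ℕ, (x, y, z, w) ∈ S → x ∈ U ∧ y ∈ U ∧ z ∈ U := by
    intro x y z w h
    have hn := hS' x y z w h
    rw [hUdef, Finset.mem_filter, Finset.mem_filter, Finset.mem_filter]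
    exact ⟨⟨c1_le_sqrt (k := y ^ 2 + z ^ 2 + 4 * w ^ 2) (by omega), x, y, z, w, h, Or.inl rfl⟩,
      ⟨c1_le_sqrt (k := x ^ 2 + z ^ 2 + 4 * w ^ 2) (by omega), x, y, z, w, h,
        Or.inr (Or.inl rfl)⟩,
      ⟨c1_le_sqrt (k := x ^ 2 + y ^ 2 + 4 * w ^ 2) (by omega), x, y, z, w, h,
        Or.inr (Or.inr rfl)⟩⟩
  set L : ℕ := ∑ u ∈ U, (P1 n u).card with hL
  have hcard : S.card ≤ 3 * (M * (r + 1)) + 6 * L := by
    rw [← Finset.card_filter_add_card_filter_not (s := S)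
      (fun q => q.1 = q.2.1 ∨ q.1 = q.2.2.1 ∨ q.2.1 = q.2.2.1)]
    exact Nat.add_le_add (c1_diag n M hRep S hS') (c1_sort n S U hS' hUU)
  have hLge : (n : ℝ) ^ (1 - ε / 4) / 12 ≤ L := by
    have h1 : (S.card : ℝ) ≤ 3 * ((M * (r + 1) : ℕ) : ℝ) + 6 * L := by exact_mod_cast hcard
    have h2 : 12 * C * (n : ℝ) ^ (1 / 2 + e) ≤ (n : ℝ) ^ (1 - ε / 4) := hE1
    nlinarith
  -- the levels
  set X : Finset ℕ := U.filter (fun u => (n : ℝ) ^ (1 / 4 : ℝ) ≤ u ∧
    (u : ℝ) ^ (1 - ε) ≤ (P1 n u).card) with hX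
  set A : Finset ℕ := U.filter (fun u => (u : ℝ) < (n : ℝ) ^ (1 / 4 : ℝ)) with hA
  set B : Finset ℕ := U.filter
    (fun u => ((P1 n u).card : ℝ) < (u : ℝ) ^ (1 - ε)) with hB
  have hcov : U ⊆ A ∪ (B ∪ X) := by
    intro u hu
    by_cases h1 : (u : ℝ) < (n : ℝ) ^ (1 / 4 : ℝ)
    · exact Finset.mem_union_left _ (Finset.mem_filter.2 ⟨hu, h1⟩)
    · by_cases h2 : ((P1 n u).card : ℝ) < (u : ℝ) ^ (1 - ε)
      · exact Finset.mem_union_right _ (Finset.mem_union_left _ (Finset.mem_filter.2 ⟨hu, h2⟩))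
      · exact Finset.mem_union_right _ (Finset.mem_union_right _
          (Finset.mem_filter.2 ⟨hu, not_lt.1 h1, not_lt.1 h2⟩))
  have hLsplit : (L : ℝ) ≤ ∑ u ∈ A, ((P1 n u).card : ℝ) + (∑ u ∈ B, ((P1 n u).card : ℝ) +
      ∑ u ∈ X, ((P1 n u).card : ℝ)) := by
    have hL' : (L : ℝ) = ∑ u ∈ U, ((P1 n u).card : ℝ) := by
      rw [hL]; push_cast; rfl
    rw [hL']
    have h1 : ∑ u ∈ U, ((P1 n u).card : ℝ) ≤
        ∑ u ∈ A ∪ (B ∪ X), ((P1 n u).card : ℝ) :=
      Finset.sum_le_sum_of_subset_of_nonneg hcov (fun _ _ _ => Nat.cast_nonneg _)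
    have h2 : ∀ (U V : Finset ℕ), ∑ u ∈ U ∪ V, ((P1 n u).card : ℝ) ≤
        ∑ u ∈ U, ((P1 n u).card : ℝ) + ∑ u ∈ V, ((P1 n u).card : ℝ) := by
      intro U V
      rw [← Finset.sum_union_inter]
      have : 0 ≤ ∑ u ∈ U ∩ V, ((P1 n u).card : ℝ) :=
        Finset.sum_nonneg (fun _ _ => Nat.cast_nonneg _)
      linarith
    have h3 := h2 A (B ∪ X)
    have h4 := h2 B X
    linarith
  have hqq : (n : ℝ) ^ (1 / 4 : ℝ) * (n : ℝ) ^ (1 / 4 : ℝ) = (n : ℝ) ^ (1 / 2 : ℝ) := by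
    rw [← Real.rpow_add hnpos]; norm_num
  have h14 : (1 : ℝ) ≤ (n : ℝ) ^ (1 / 4 : ℝ) := Real.one_le_rpow hn1' (by norm_num)
  have hAcard : (A.card : ℝ) ≤ 2 * (n : ℝ) ^ (1 / 4 : ℝ) := by
    have h1 : A ⊆ range (⌊(n : ℝ) ^ (1 / 4 : ℝ)⌋₊ + 1) := by
      intro u hu
      rw [hA, Finset.mem_filter] at hu
      rw [Finset.mem_range, Nat.lt_succ_iff]
      exact Nat.le_floor hu.2.le
    have h2 := Finset.card_le_card h1
    rw [Finset.card_range] at h2
    have h3 : (A.card : ℝ) ≤ (⌊(n : ℝ) ^ (1 / 4 : ℝ)⌋₊ : ℝ) + 1 := by exact_mod_cast h2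
    have h4 : (⌊(n : ℝ) ^ (1 / 4 : ℝ)⌋₊ : ℝ) ≤ (n : ℝ) ^ (1 / 4 : ℝ) :=
      Nat.floor_le (by positivity)
    linarith
  have hAsum : ∑ u ∈ A, ((P1 n u).card : ℝ) ≤ 2 * (n : ℝ) ^ (3 / 4 : ℝ) := by
    have h1 : ∀ u ∈ A, ((P1 n u).card : ℝ) ≤ (n : ℝ) ^ (1 / 2 : ℝ) := by
      intro u hu
      rw [hA, Finset.mem_filter] at hu
      have h2 : ((P1 n u).card : ℝ) ≤ (u : ℝ) * u := by exact_mod_cast c1_P1u n u
      have h3 : (u : ℝ) * u ≤ (n : ℝ) ^ (1 / 4 : ℝ) * (n : ℝ) ^ (1 / 4 : ℝ) :=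
        mul_le_mul hu.2.le hu.2.le (Nat.cast_nonneg _) (by positivity)
      linarith
    have h2 := Finset.sum_le_card_nsmul A _ _ h1
    rw [nsmul_eq_mul] at h2
    have h3 : (n : ℝ) ^ (3 / 4 : ℝ) = (n : ℝ) ^ (1 / 4 : ℝ) * (n : ℝ) ^ (1 / 2 : ℝ) := by
      rw [← Real.rpow_add hnpos]; norm_num
    rw [h3]
    have h4 : (A.card : ℝ) * (n : ℝ) ^ (1 / 2 : ℝ) ≤
        (2 * (n : ℝ) ^ (1 / 4 : ℝ)) * (n : ℝ) ^ (1 / 2 : ℝ) :=
      mul_le_mul_of_nonneg_right hAcard (by positivity)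
    linarith
  have hBsum : ∑ u ∈ B, ((P1 n u).card : ℝ) ≤ 2 * (n : ℝ) ^ (1 - ε / 2) := by
    have h1 : ∀ u ∈ B, ((P1 n u).card : ℝ) ≤ (n : ℝ) ^ (1 / 2 - ε / 2) := by
      intro u hu
      rw [hB, Finset.mem_filter] at hu
      have h2 : (u : ℝ) ≤ (n : ℝ) ^ (1 / 2 : ℝ) := by
        have h0 : u ≤ r := Nat.lt_succ_iff.1 (Finset.mem_range.1 (hUr hu.1))
        have : (u : ℝ) ≤ r := by exact_mod_cast h0
        linarith
      have h3 : (u : ℝ) ^ (1 - ε) ≤ ((n : ℝ) ^ (1 / 2 : ℝ)) ^ (1 - ε) :=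
        Real.rpow_le_rpow (Nat.cast_nonneg _) h2 (by linarith)
      rw [← Real.rpow_mul hnpos.le] at h3
      have h4 : (1 / 2 : ℝ) * (1 - ε) = 1 / 2 - ε / 2 := by ring
      rw [h4] at h3
      linarith [hu.2]
    have h2 := Finset.sum_le_card_nsmul B _ _ h1
    rw [nsmul_eq_mul] at h2
    have h3 : (B.card : ℝ) ≤ 2 * (n : ℝ) ^ (1 / 2 : ℝ) := by
      have h5 : B.card ≤ r + 1 := by
        have h7 := Finset.card_filter_le U (fun u => ((P1 n u).card : ℝ) < (u : ℝ) ^ (1 - ε))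
        have h8 := Finset.card_le_card hUr
        rw [Finset.card_range] at h8
        exact h7.trans h8
      have h6 : (B.card : ℝ) ≤ ((r + 1 : ℕ) : ℝ) := by exact_mod_cast h5
      linarith
    have h4 : (n : ℝ) ^ (1 - ε / 2) = (n : ℝ) ^ (1 / 2 : ℝ) * (n : ℝ) ^ (1 / 2 - ε / 2) := by
      rw [← Real.rpow_add hnpos]; congr 1; ring
    rw [h4]
    have h5 : (B.card : ℝ) * (n : ℝ) ^ (1 / 2 - ε / 2) ≤
        (2 * (n : ℝ) ^ (1 / 2 : ℝ)) * (n : ℝ) ^ (1 / 2 - ε / 2) :=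
      mul_le_mul_of_nonneg_right h3 (by positivity)
    linarith
  have hXsum : ∑ u ∈ X, ((P1 n u).card : ℝ) ≤ X.card * (2 * C * (n : ℝ) ^ (1 / 2 + e)) := by
    have h1 : ∀ u ∈ X, ((P1 n u).card : ℝ) ≤ 2 * C * (n : ℝ) ^ (1 / 2 + e) := by
      intro u _
      have h2 : ((P1 n u).card : ℝ) ≤ ((M * (r + 1) : ℕ) : ℝ) := by
        exact_mod_cast c1_P1 n M u hRep
      linarith
    have h2 := Finset.sum_le_card_nsmul X _ _ h1
    rwa [nsmul_eq_mul] at h2
  refine ⟨X, ?_, ?_⟩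
  · have h1 : (n : ℝ) ^ (1 - ε / 4) / 24 ≤ X.card * (2 * C * (n : ℝ) ^ (1 / 2 + e)) := by
      linarith
    have h2 : (n : ℝ) ^ (1 - ε / 4) = (n : ℝ) ^ (1 / 2 - ε / 4 - e) * (n : ℝ) ^ (1 / 2 + e) := by
      rw [← Real.rpow_add hnpos]; congr 1; ring
    rw [h2] at h1
    have hp : 0 < (n : ℝ) ^ (1 / 2 + e) := Real.rpow_pos_of_pos hnpos _
    have h3 : (n : ℝ) ^ (1 / 2 - ε / 4 - e) ≤ 48 * C * X.card := by
      have : (n : ℝ) ^ (1 / 2 - ε / 4 - e) * (n : ℝ) ^ (1 / 2 + e) ≤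
          (48 * C * X.card) * (n : ℝ) ^ (1 / 2 + e) := by
        nlinarith
      exact le_of_mul_le_mul_right this hp
    have h4 : 48 * C * (n : ℝ) ^ (1 / 2 - ε) ≤ 48 * C * X.card := hE4.trans h3
    exact le_of_mul_le_mul_left h4 (by positivity)
  · intro u hu
    rw [hX, Finset.mem_filter] at hu
    have h1 := hu.1
    rw [hUdef, Finset.mem_filter, Finset.mem_range, Nat.lt_succ_iff] at h1
    exact ⟨h1.2, h1.1.trans (Nat.sqrt_le_self n), hu.2.1, hu.2.2⟩

end Pool.Agent.D0H12.PW.GG
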